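import Pool.Agent.Lib.MP_bea121_gt.ProfileMain

/-!
# Total absolute mean curvature and diameter of tori of revolution

For every immersed torus of revolution in `ℝ³` the integral of `|H|` is at least
`(π² / 2) * diam`, and the constant `π² / 2` is optimal.  Since `π² / 2 > π`, this gives the
inequality conjectured by Topping for all immersed tori of revolution.
-/

open Real MeasureTheory

namespace Pool.Agent.Results.MP_bea121_gt.AxisymmetricTori

/-- Euclidean three-space. -/
abbrev E3 : Type := EuclideanSpace ℝ (Fin 3)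

/-- The vector product of `ℝ³`. -/
noncomputable def cross (a b : E3) : E3 := WithLp.toLp 2 (crossProduct a.ofLp b.ofLp)

/-- Partial derivative `∂f/∂u` of a parametrised surface `f u v`. -/
noncomputable def dU (f : ℝ → ℝ → E3) : ℝ → ℝ → E3 := fun u v => deriv (fun t => f t v) u

/-- Partial derivative `∂f/∂v` of a parametrised surface `f u v`. -/
noncomputable def dV (f : ℝ → ℝ → E3) : ℝ → ℝ → E3 := fun u v => deriv (fun t => f u t) v

/-- First fundamental form coefficient `E = ⟨f_u, f_u⟩`. -/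
noncomputable def gE (f : ℝ → ℝ → E3) (u v : ℝ) : ℝ := inner ℝ (dU f u v) (dU f u v)

/-- First fundamental form coefficient `F = ⟨f_u, f_v⟩`. -/
noncomputable def gF (f : ℝ → ℝ → E3) (u v : ℝ) : ℝ := inner ℝ (dU f u v) (dV f u v)

/-- First fundamental form coefficient `G = ⟨f_v, f_v⟩`. -/
noncomputable def gG (f : ℝ → ℝ → E3) (u v : ℝ) : ℝ := inner ℝ (dV f u v) (dV f u v)

/-- Area density `√(EG - F²)`. -/
noncomputable def areaDensity (f : ℝ → ℝ → E3) (u v : ℝ) : ℝ :=
  √(gE f u v * gG f u v - gF f u v ^ 2)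

/-- Unit normal `(f_u × f_v) / √(EG - F²)`. -/
noncomputable def unitNormal (f : ℝ → ℝ → E3) (u v : ℝ) : E3 :=
  (areaDensity f u v)⁻¹ • cross (dU f u v) (dV f u v)

/-- Second fundamental form coefficient `L = ⟨f_uu, n⟩`. -/
noncomputable def sL (f : ℝ → ℝ → E3) (u v : ℝ) : ℝ := inner ℝ (dU (dU f) u v) (unitNormal f u v)

/-- Second fundamental form coefficient `M = ⟨f_uv, n⟩`. -/
noncomputable def sM (f : ℝ → ℝ → E3) (u v : ℝ) : ℝ := inner ℝ (dV (dU f) u v) (unitNormal f u v)

/-- Second fundamental form coefficient `N = ⟨f_vv, n⟩`. -/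
noncomputable def sN (f : ℝ → ℝ → E3) (u v : ℝ) : ℝ := inner ℝ (dV (dV f) u v) (unitNormal f u v)

/-- Mean curvature, the average of the two principal curvatures:
`H = (EN - 2FM + GL) / (2 (EG - F²))`. -/
noncomputable def meanCurvature (f : ℝ → ℝ → E3) (u v : ℝ) : ℝ :=
  (gE f u v * sN f u v - 2 * gF f u v * sM f u v + gG f u v * sL f u v)
    / (2 * (gE f u v * gG f u v - gF f u v ^ 2))

/-- Integral of `|H|` with respect to the area measure over the parameter rectangle
`[0, A] × [0, B]`. -/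
noncomputable def totalAbsMeanCurvature (f : ℝ → ℝ → E3) (A B : ℝ) : ℝ :=
  ∫ u in (0)..A, ∫ v in (0)..B, |meanCurvature f u v| * areaDensity f u v

/-- A closed regular curve `s ↦ (r s, z s)` of class `C^n` and period `T` in the open half plane
`r > 0`. -/
structure IsClosedProfile (n : WithTop ℕ∞) (r z : ℝ → ℝ) (T : ℝ) : Prop where
  period_pos : 0 < T
  smooth_r : ContDiff ℝ n r
  smooth_z : ContDiff ℝ n z
  periodic_r : Function.Periodic r T
  periodic_z : Function.Periodic z T
  pos : ∀ s, 0 < r s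
  regular : ∀ s, deriv r s ≠ 0 ∨ deriv z s ≠ 0

/-- The surface of revolution (about the third coordinate axis) with profile curve `(r, z)`.
For a closed profile of period `T` it is `T`-periodic in `s` and `2π`-periodic in `φ`, i.e. an
immersed torus. -/
noncomputable def revolve (r z : ℝ → ℝ) : ℝ → ℝ → E3 :=
  fun s φ => !₂[r s * cos φ, r s * sin φ, z s]

/-- The image in `ℝ³` of a parametrised surface. -/
def image (f : ℝ → ℝ → E3) : Set E3 := Set.range fun p : ℝ × ℝ => f p.1 p.2

/-! ### Computations -/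

lemma hasDerivAt_E3 {f g h : ℝ → ℝ} {f' g' h' x : ℝ} (hf : HasDerivAt f f' x)
    (hg : HasDerivAt g g' x) (hh : HasDerivAt h h' x) :
    HasDerivAt (fun t => (!₂[f t, g t, h t] : E3)) !₂[f', g', h'] x := by
  have h1 : HasDerivAt (fun t => ![f t, g t, h t]) ![f', g', h'] x := by
    rw [hasDerivAt_pi]
    intro i
    fin_cases i
    · simpa using hf
    · simpa using hg
    · simpa using hh
  exact (PiLp.hasFDerivAt_toLp 2 _).comp_hasDerivAt x h1

lemma inner_E3 (a b c d e f : ℝ) :
    inner ℝ (!₂[a, b, c] : E3) !₂[d, e, f] = a * d + b * e + c * f := by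
  simp [PiLp.inner_apply, Fin.sum_univ_three]
  ring

lemma cross_E3 (a b c d e f : ℝ) :
    cross !₂[a, b, c] !₂[d, e, f] = !₂[b * f - c * e, c * d - a * f, a * e - b * d] := by
  simp [cross, crossProduct]

lemma smul_E3 (k a b c : ℝ) : k • (!₂[a, b, c] : E3) = !₂[k * a, k * b, k * c] := by
  ext i
  fin_cases i <;> simp

section geometry

variable {r r1 r2 z z1 z2 : ℝ → ℝ}

lemma dU_revolve (hr : ∀ x, HasDerivAt r (r1 x) x) (hz : ∀ x, HasDerivAt z (z1 x) x) :
    dU (revolve r z) = fun s φ => !₂[r1 s * cos φ, r1 s * sin φ, z1 s] := by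
  funext s φ
  exact (hasDerivAt_E3 ((hr s).mul_const _) ((hr s).mul_const _) (hz s)).deriv

lemma dV_revolve (a b : ℝ → ℝ) :
    dV (fun s φ => (!₂[a s * cos φ, a s * sin φ, b s] : E3))
      = fun s φ => !₂[- (a s) * sin φ, a s * cos φ, 0] := by
  funext s φ
  have h1 : HasDerivAt (fun t => a s * cos t) (- (a s) * sin φ) φ := by
    have := (Real.hasDerivAt_cos φ).const_mul (a s)
    refine this.congr_deriv (by ring)
  have h2 : HasDerivAt (fun t => a s * sin t) (a s * cos φ) φ :=
    (Real.hasDerivAt_sin φ).const_mul (a s)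
  exact (hasDerivAt_E3 h1 h2 (hasDerivAt_const φ (b s))).deriv

lemma dVV_revolve (a : ℝ → ℝ) :
    dV (fun s φ => (!₂[- (a s) * sin φ, a s * cos φ, 0] : E3))
      = fun s φ => !₂[- (a s) * cos φ, - (a s) * sin φ, 0] := by
  funext s φ
  have h1 : HasDerivAt (fun t => - (a s) * sin t) (- (a s) * cos φ) φ :=
    (Real.hasDerivAt_sin φ).const_mul (- (a s))
  have h2 : HasDerivAt (fun t => a s * cos t) (- (a s) * sin φ) φ := by
    have := (Real.hasDerivAt_cos φ).const_mul (a s)
    refine this.congr_deriv (by ring)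
  exact (hasDerivAt_E3 h1 h2 (hasDerivAt_const φ 0)).deriv

/-- The integrand for a surface of revolution. -/
lemma integrand_revolve (P : Pool.Agent.Lib.MP_bea121_gt.Prof r r1 r2 z z1 z2) (s φ : ℝ) :
    |meanCurvature (revolve r z) s φ| * areaDensity (revolve r z) s φ
      = 1 / 2 * |Pool.Agent.Lib.MP_bea121_gt.Prof.hf r r1 r2 z1 z2 s| := by
  have hrev : revolve r z = fun s φ => (!₂[r s * cos φ, r s * sin φ, z s] : E3) := rfl
  have e1 : dU (revolve r z) = fun s φ => !₂[r1 s * cos φ, r1 s * sin φ, z1 s] :=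
    dU_revolve P.hr P.hz
  have e2 : dV (revolve r z) = fun s φ => !₂[- (r s) * sin φ, r s * cos φ, 0] := by
    rw [hrev]; exact dV_revolve r z
  have e3 : dU (dU (revolve r z)) = fun s φ => !₂[r2 s * cos φ, r2 s * sin φ, z2 s] := by
    rw [e1]
    exact dU_revolve (r := r1) (z := z1) P.hr1 P.hz1
  have e4 : dV (dU (revolve r z)) = fun s φ => !₂[- (r1 s) * sin φ, r1 s * cos φ, 0] := by
    rw [e1]; exact dV_revolve r1 z1
  have e5 : dV (dV (revolve r z)) = fun s φ => !₂[- (r s) * cos φ, - (r s) * sin φ, 0] := by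
    rw [e2]; exact dVV_revolve r
  have hcs : sin φ ^ 2 + cos φ ^ 2 = 1 := sin_sq_add_cos_sq φ
  have hreg := P.reg s
  have hpos := P.pos s
  have gE' : gE (revolve r z) s φ = r1 s ^ 2 + z1 s ^ 2 := by
    simp only [gE, e1, inner_E3]
    linear_combination (r1 s) ^ 2 * hcs
  have gF' : gF (revolve r z) s φ = 0 := by
    simp only [gF, e1, e2, inner_E3]
    ring
  have gG' : gG (revolve r z) s φ = r s ^ 2 := by
    simp only [gG, e2, inner_E3]
    linear_combination (r s) ^ 2 * hcs
  have hdet : gE (revolve r z) s φ * gG (revolve r z) s φ - gF (revolve r z) s φ ^ 2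
      = (r1 s ^ 2 + z1 s ^ 2) * r s ^ 2 := by
    rw [gE', gF', gG']; ring
  have hA : areaDensity (revolve r z) s φ = √(r1 s ^ 2 + z1 s ^ 2) * r s := by
    rw [areaDensity, hdet, Real.sqrt_mul hreg.le, Real.sqrt_sq hpos.le]
  set w := √(r1 s ^ 2 + z1 s ^ 2) with hw
  have hwpos : 0 < w := Real.sqrt_pos.2 hreg
  have hw2 : w ^ 2 = r1 s ^ 2 + z1 s ^ 2 := Real.sq_sqrt hreg.le
  have hn : unitNormal (revolve r z) s φ
      = !₂[(w * r s)⁻¹ * (- z1 s * (r s * cos φ)), (w * r s)⁻¹ * (- z1 s * (r s * sin φ)),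
          (w * r s)⁻¹ * (r1 s * r s)] := by
    rw [unitNormal, hA, e1, e2]
    simp only [cross_E3, smul_E3]
    have a1 : r1 s * sin φ * 0 - z1 s * (r s * cos φ) = - z1 s * (r s * cos φ) := by ring
    have a2 : z1 s * (- r s * sin φ) - r1 s * cos φ * 0 = - z1 s * (r s * sin φ) := by ring
    have a3 : r1 s * cos φ * (r s * cos φ) - r1 s * sin φ * (- r s * sin φ) = r1 s * r s := by
      linear_combination (r1 s * r s) * hcs
    rw [a1, a2, a3]
  have hL : sL (revolve r z) s φ = (r1 s * z2 s - r2 s * z1 s) / w := by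
    simp only [sL, e3, hn, inner_E3]
    field_simp
    linear_combination (- (r2 s * z1 s)) * hcs
  have hM : sM (revolve r z) s φ = 0 := by
    simp only [sM, e4, hn, inner_E3]
    ring
  have hN : sN (revolve r z) s φ = r s * z1 s / w := by
    simp only [sN, e5, hn, inner_E3]
    field_simp
    linear_combination (r s * z1 s) * hcs
  have hH : meanCurvature (revolve r z) s φ
      = Pool.Agent.Lib.MP_bea121_gt.Prof.hf r r1 r2 z1 z2 s / (2 * (w * r s)) := by
    rw [meanCurvature, hdet, gE', gF', gG', hL, hM, hN,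
      Pool.Agent.Lib.MP_bea121_gt.Prof.hf, ← hw2]
    field_simp
    ring
  rw [hH, hA, abs_div, abs_of_pos (by positivity : 0 < 2 * (w * r s))]
  field_simp

lemma total_revolve (P : Pool.Agent.Lib.MP_bea121_gt.Prof r r1 r2 z z1 z2) (T : ℝ) :
    totalAbsMeanCurvature (revolve r z) T (2 * π)
      = π * ∫ s in (0)..T, |Pool.Agent.Lib.MP_bea121_gt.Prof.hf r r1 r2 z1 z2 s| := by
  rw [totalAbsMeanCurvature]
  simp only [integrand_revolve P, intervalIntegral.integral_const, smul_eq_mul]
  rw [← intervalIntegral.integral_const_mul]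
  congr 1
  funext s
  ring

lemma dist_sq_revolve (s φ t ψ : ℝ) :
    dist (revolve r z s φ) (revolve r z t ψ) ^ 2
      = (r s) ^ 2 + (r t) ^ 2 - 2 * r s * r t * cos (φ - ψ) + (z t - z s) ^ 2 := by
  rw [EuclideanSpace.dist_eq, Real.sq_sqrt (Finset.sum_nonneg fun i _ => sq_nonneg _)]
  simp only [Fin.sum_univ_three, revolve, Real.dist_eq, sq_abs]
  simp
  rw [cos_sub]
  linear_combination (r s) ^ 2 * (sin_sq_add_cos_sq φ) + (r t) ^ 2 * (sin_sq_add_cos_sq ψ)

end geometry

open Pool.Agent.Lib.MP_bea121_gt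

lemma prof_of_closed {r z : ℝ → ℝ} {T : ℝ} (h : IsClosedProfile 2 r z T) :
    Prof r (deriv r) (deriv (deriv r)) z (deriv z) (deriv (deriv z)) := by
  have hr := h.smooth_r
  have hz := h.smooth_z
  have hr1 : ContDiff ℝ 1 (deriv r) := by
    have : ContDiff ℝ (1 + 1) r := by simpa [one_add_one_eq_two] using hr
    exact this.deriv'
  have hz1 : ContDiff ℝ 1 (deriv z) := by
    have : ContDiff ℝ (1 + 1) z := by simpa [one_add_one_eq_two] using hz
    exact this.deriv'
  exact {
    hr := fun x => (hr.differentiable (by norm_num) x).hasDerivAt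
    hr1 := fun x => (hr1.differentiable (by norm_num) x).hasDerivAt
    hr2 := hr1.continuous_deriv (by norm_num)
    hz := fun x => (hz.differentiable (by norm_num) x).hasDerivAt
    hz1 := fun x => (hz1.differentiable (by norm_num) x).hasDerivAt
    hz2 := hz1.continuous_deriv (by norm_num)
    pos := h.pos
    reg := by
      intro x
      rcases h.regular x with h1 | h1
      · have : 0 < deriv r x ^ 2 := by positivity
        nlinarith [sq_nonneg (deriv z x)]
      · have : 0 < deriv z x ^ 2 := by positivity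
        nlinarith [sq_nonneg (deriv r x)] }

/-- lower bound -/
lemma lower {r z : ℝ → ℝ} {T : ℝ} (h : IsClosedProfile 2 r z T) :
    π ^ 2 / 2 * Metric.diam (image (revolve r z))
      ≤ totalAbsMeanCurvature (revolve r z) T (2 * π) := by
  have P := prof_of_closed h
  rw [total_revolve P]
  have key := profile_lower P h.period_pos h.periodic_r h.periodic_z
  have hdiam : Metric.diam (image (revolve r z))
      ≤ 2 / π * ∫ s in (0)..T, |Prof.hf r (deriv r) (deriv (deriv r)) (deriv z)
        (deriv (deriv z)) s| := by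
    have hnn : 0 ≤ 2 / π * ∫ s in (0)..T, |Prof.hf r (deriv r) (deriv (deriv r)) (deriv z)
        (deriv (deriv z)) s| := by
      have : 0 ≤ ∫ s in (0)..T, |Prof.hf r (deriv r) (deriv (deriv r)) (deriv z)
        (deriv (deriv z)) s| :=
        intervalIntegral.integral_nonneg h.period_pos.le fun x _ => abs_nonneg _
      have := Real.pi_pos
      positivity
    apply Metric.diam_le_of_forall_dist_le hnn
    rintro _ ⟨⟨s, φ⟩, rfl⟩ _ ⟨⟨t, ψ⟩, rfl⟩
    have k := key s t
    have h1 : dist (revolve r z s φ) (revolve r z t ψ) ≤ √((r s + r t) ^ 2 + (z t - z s) ^ 2) := by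
      apply Real.le_sqrt_of_sq_le
      rw [dist_sq_revolve]
      have h2 := Real.neg_one_le_cos (φ - ψ)
      have h3 := mul_pos (h.pos s) (h.pos t)
      nlinarith
    have hπ := Real.pi_pos
    have h4 : 2 / π * (π / 2 * √((r s + r t) ^ 2 + (z t - z s) ^ 2))
        = √((r s + r t) ^ 2 + (z t - z s) ^ 2) := by field_simp
    calc dist (revolve r z s φ) (revolve r z t ψ) ≤ √((r s + r t) ^ 2 + (z t - z s) ^ 2) := h1
      _ = 2 / π * (π / 2 * √((r s + r t) ^ 2 + (z t - z s) ^ 2)) := h4.symm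
      _ ≤ _ := by gcongr
  have hπ := Real.pi_pos
  calc π ^ 2 / 2 * Metric.diam (image (revolve r z))
      ≤ π ^ 2 / 2 * (2 / π * ∫ s in (0)..T, |Prof.hf r (deriv r) (deriv (deriv r)) (deriv z)
        (deriv (deriv z)) s|) := by gcongr
    _ = _ := by field_simp

/-! ### The extremal family -/

section family

/-- auxiliary function `√(ε² + sin² s)` -/
noncomputable def wf (ε s : ℝ) : ℝ := √(ε ^ 2 + sin s ^ 2)

/-- extremal profile, radius -/
noncomputable def rf (ε s : ℝ) : ℝ := 1 + sin s / wf ε s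

/-- extremal profile, height -/
noncomputable def zf (ε s : ℝ) : ℝ := - (ε ^ 2 / (1 + ε ^ 2)) * (cos s / wf ε s)

/-- speed of the extremal profile -/
noncomputable def gf (ε s : ℝ) : ℝ := ε ^ 2 / wf ε s ^ 3

variable {ε : ℝ}

lemma wf_pos (hε : 0 < ε) (s : ℝ) : 0 < wf ε s := Real.sqrt_pos.2 (by positivity)

lemma wf_sq (s : ℝ) : wf ε s ^ 2 = ε ^ 2 + sin s ^ 2 := Real.sq_sqrt (by positivity)

lemma gf_pos (hε : 0 < ε) (s : ℝ) : 0 < gf ε s := by
  have := wf_pos hε s
  unfold gf
  positivity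

lemma wf_deriv (hε : 0 < ε) (s : ℝ) : HasDerivAt (wf ε) (sin s * cos s / wf ε s) s := by
  have h := (((Real.hasDerivAt_sin s).pow 2).const_add (ε ^ 2)).sqrt
    (by simp only [Pi.pow_apply]; positivity)
  refine h.congr_deriv ?_
  have hp := wf_pos hε s
  have e : √(ε ^ 2 + (sin ^ 2) s) = wf ε s := rfl
  rw [e, div_eq_div_iff (by positivity) hp.ne']
  push_cast
  ring

lemma rf_deriv (hε : 0 < ε) (s : ℝ) : HasDerivAt (rf ε) (cos s * gf ε s) s := by
  have hp := wf_pos hε s
  have h := ((Real.hasDerivAt_sin s).div (wf_deriv hε s) hp.ne').const_add 1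
  refine h.congr_deriv ?_
  unfold gf
  have h2 := wf_sq (ε := ε) s
  field_simp
  linear_combination (cos s) * h2

lemma zf_deriv (hε : 0 < ε) (s : ℝ) : HasDerivAt (zf ε) (sin s * gf ε s) s := by
  have hp := wf_pos hε s
  have h := ((Real.hasDerivAt_cos s).div (wf_deriv hε s) hp.ne').const_mul (- (ε ^ 2 / (1 + ε ^ 2)))
  refine h.congr_deriv ?_
  unfold gf
  have h2 := wf_sq (ε := ε) s
  have h3 := sin_sq_add_cos_sq s
  field_simp
  linear_combination (sin s) * h2 + (sin s) * h3

lemma gf_deriv (hε : 0 < ε) (s : ℝ) :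
    HasDerivAt (gf ε) (- 3 * ε ^ 2 * sin s * cos s / wf ε s ^ 5) s := by
  have hp := wf_pos hε s
  have h := ((wf_deriv hε s).pow 3).inv (by simp only [Pi.pow_apply]; positivity)
  have h' := h.const_mul (ε ^ 2)
  refine h'.congr_deriv ?_
  simp only [Pi.pow_apply]
  push_cast
  field_simp

lemma wf_cont : Continuous (wf ε) := by unfold wf; fun_prop

lemma prof_family (hε : 0 < ε) : Prof (rf ε) (fun s => cos s * gf ε s)
    (fun s => - sin s * gf ε s + cos s * (- 3 * ε ^ 2 * sin s * cos s / wf ε s ^ 5))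
    (zf ε) (fun s => sin s * gf ε s)
    (fun s => cos s * gf ε s + sin s * (- 3 * ε ^ 2 * sin s * cos s / wf ε s ^ 5)) where
  hr := rf_deriv hε
  hr1 s := (Real.hasDerivAt_cos s).mul (gf_deriv hε s)
  hr2 := by
    have h1 := wf_cont (ε := ε)
    have h2 : ∀ s, wf ε s ^ 5 ≠ 0 := fun s => (pow_pos (wf_pos hε s) 5).ne'
    have h3 : ∀ s, wf ε s ^ 3 ≠ 0 := fun s => (pow_pos (wf_pos hε s) 3).ne'
    have h4 : Continuous fun s => - 3 * ε ^ 2 * sin s * cos s / wf ε s ^ 5 :=
      Continuous.div (by fun_prop) (by fun_prop) h2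
    have h5 : Continuous (gf ε) := Continuous.div (by fun_prop) (by fun_prop) h3
    fun_prop
  hz := zf_deriv hε
  hz1 s := (Real.hasDerivAt_sin s).mul (gf_deriv hε s)
  hz2 := by
    have h1 := wf_cont (ε := ε)
    have h2 : ∀ s, wf ε s ^ 5 ≠ 0 := fun s => (pow_pos (wf_pos hε s) 5).ne'
    have h3 : ∀ s, wf ε s ^ 3 ≠ 0 := fun s => (pow_pos (wf_pos hε s) 3).ne'
    have h4 : Continuous fun s => - 3 * ε ^ 2 * sin s * cos s / wf ε s ^ 5 :=
      Continuous.div (by fun_prop) (by fun_prop) h2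
    have h5 : Continuous (gf ε) := Continuous.div (by fun_prop) (by fun_prop) h3
    fun_prop
  pos s := by
    have hp := wf_pos hε s
    have h1 : |sin s| < wf ε s := by
      rw [← Real.sqrt_sq_eq_abs]
      exact Real.sqrt_lt_sqrt (sq_nonneg _) (by nlinarith [sq_pos_of_pos hε])
    have h2 : -1 < sin s / wf ε s := by
      rw [lt_div_iff₀ hp]
      have := neg_abs_le (sin s)
      linarith
    unfold rf
    linarith
  reg s := by
    have hp := gf_pos hε s
    have : (cos s * gf ε s) ^ 2 + (sin s * gf ε s) ^ 2 = gf ε s ^ 2 := by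
      linear_combination (gf ε s ^ 2) * sin_sq_add_cos_sq s
    rw [this]
    positivity

lemma hf_family (hε : 0 < ε) (s : ℝ) :
    Prof.hf (rf ε) (fun s => cos s * gf ε s)
      (fun s => - sin s * gf ε s + cos s * (- 3 * ε ^ 2 * sin s * cos s / wf ε s ^ 5))
      (fun s => sin s * gf ε s)
      (fun s => cos s * gf ε s + sin s * (- 3 * ε ^ 2 * sin s * cos s / wf ε s ^ 5)) s
      = sin s * gf ε s + rf ε s := by
  have hp := gf_pos hε s
  have hcs := sin_sq_add_cos_sq s
  simp only [Prof.hf]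
  have e1 : (cos s * gf ε s) ^ 2 + (sin s * gf ε s) ^ 2 = gf ε s ^ 2 := by
    linear_combination (gf ε s ^ 2) * hcs
  rw [e1]
  have e2 : cos s * gf ε s * (cos s * gf ε s + sin s * (- 3 * ε ^ 2 * sin s * cos s / wf ε s ^ 5))
      - (- sin s * gf ε s + cos s * (- 3 * ε ^ 2 * sin s * cos s / wf ε s ^ 5))
        * (sin s * gf ε s) = gf ε s ^ 2 := by
    linear_combination (gf ε s ^ 2) * hcs
  rw [e2]
  field_simp

lemma wf_sub (s : ℝ) : wf ε (2 * π - s) = wf ε s := by
  simp only [wf, Real.sin_two_pi_sub, neg_sq]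

lemma rf_cont (hε : 0 < ε) : Continuous (rf ε) := by
  have h1 := wf_cont (ε := ε)
  unfold rf
  exact continuous_const.add (Continuous.div (by fun_prop) h1 fun s => (wf_pos hε s).ne')

lemma integral_rf (hε : 0 < ε) : ∫ s in (0)..(2 * π), rf ε s = 2 * π := by
  have h1 := wf_cont (ε := ε)
  have hc : Continuous fun s => sin s / wf ε s :=
    Continuous.div (by fun_prop) h1 fun s => (wf_pos hε s).ne'
  have h0 : ∫ s in (0)..(2 * π), sin s / wf ε s = 0 := by
    have e1 : ∫ s in (0)..(2 * π), sin (2 * π - s) / wf ε (2 * π - s)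
        = ∫ s in (0)..(2 * π), sin s / wf ε s := by
      rw [intervalIntegral.integral_comp_sub_left (fun s => sin s / wf ε s) (2 * π)]
      simp
    simp only [wf_sub, Real.sin_two_pi_sub, neg_div, intervalIntegral.integral_neg] at e1
    linarith
  unfold rf
  rw [intervalIntegral.integral_add (intervalIntegrable_const) (hc.intervalIntegrable _ _), h0]
  simp

lemma integral_hf_family (hε : 0 < ε) :
    ∫ s in (0)..(2 * π), |sin s * gf ε s + rf ε s| ≤ 2 * π + 4 * ε := by
  have hg : Continuous (gf ε) := continuous_iff_continuousAt.2 fun s => (gf_deriv hε s).continuousAt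
  have hr := rf_cont hε
  have hc : Continuous fun s => |sin s * gf ε s + rf ε s| := by fun_prop
  have hc2 : Continuous fun s => sin s * gf ε s := by fun_prop
  have hπ := Real.pi_pos
  have h1 : ∫ s in (0)..π, |sin s * gf ε s + rf ε s|
      ≤ (zf ε π - zf ε 0) + ∫ s in (0)..π, rf ε s := by
    have e1 : ∫ s in (0)..π, sin s * gf ε s = zf ε π - zf ε 0 :=
      intervalIntegral.integral_eq_sub_of_hasDerivAt (fun s _ => zf_deriv hε s)
        (hc2.intervalIntegrable _ _)
    rw [← e1, ← intervalIntegral.integral_add (hc2.intervalIntegrable _ _)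
      (hr.intervalIntegrable _ _)]
    apply intervalIntegral.integral_mono_on hπ.le (hc.intervalIntegrable _ _)
      ((hc2.add hr).intervalIntegrable _ _)
    intro s hs
    have h2 : 0 ≤ sin s * gf ε s :=
      mul_nonneg (sin_nonneg_of_mem_Icc ⟨hs.1, hs.2⟩) (gf_pos hε s).le
    have h3 := (prof_family hε).pos s
    rw [abs_of_nonneg (by linarith)]
    exact le_refl _
  have h2 : ∫ s in π..(2 * π), |sin s * gf ε s + rf ε s|
      ≤ - (zf ε (2 * π) - zf ε π) + ∫ s in π..(2 * π), rf ε s := by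
    have e1 : ∫ s in π..(2 * π), sin s * gf ε s = zf ε (2 * π) - zf ε π :=
      intervalIntegral.integral_eq_sub_of_hasDerivAt (fun s _ => zf_deriv hε s)
        (hc2.intervalIntegrable _ _)
    have hc3 : Continuous fun s => - (sin s * gf ε s) := hc2.neg
    rw [← e1, ← intervalIntegral.integral_neg, ← intervalIntegral.integral_add
      (hc3.intervalIntegrable _ _) (hr.intervalIntegrable _ _)]
    apply intervalIntegral.integral_mono_on (by linarith) (hc.intervalIntegrable _ _)
      ((hc3.add hr).intervalIntegrable _ _)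
    intro s hs
    have h2 : sin s * gf ε s ≤ 0 := by
      have hs' : sin s ≤ 0 := by
        have := sin_nonneg_of_mem_Icc (x := s - π) ⟨by linarith [hs.1], by linarith [hs.2]⟩
        rw [Real.sin_sub_pi] at this
        linarith
      exact mul_nonpos_of_nonpos_of_nonneg hs' (gf_pos hε s).le
    have h3 := (prof_family hε).pos s
    change |sin s * gf ε s + rf ε s| ≤ - (sin s * gf ε s) + rf ε s
    rw [abs_le]
    constructor <;> linarith
  have h3 : (∫ s in (0)..π, |sin s * gf ε s + rf ε s|)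
      + (∫ s in π..(2 * π), |sin s * gf ε s + rf ε s|)
      = ∫ s in (0)..(2 * π), |sin s * gf ε s + rf ε s| :=
    intervalIntegral.integral_add_adjacent_intervals (hc.intervalIntegrable _ _)
      (hc.intervalIntegrable _ _)
  have h4 : (∫ s in (0)..π, rf ε s) + (∫ s in π..(2 * π), rf ε s)
      = ∫ s in (0)..(2 * π), rf ε s :=
    intervalIntegral.integral_add_adjacent_intervals (hr.intervalIntegrable _ _)
      (hr.intervalIntegrable _ _)
  rw [integral_rf hε] at h4
  have hw0 : wf ε 0 = ε := by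
    simp [wf, Real.sqrt_sq hε.le]
  have hwπ : wf ε π = ε := by
    simp [wf, Real.sqrt_sq hε.le]
  have hw2 : wf ε (2 * π) = ε := by
    simp [wf, Real.sqrt_sq hε.le]
  have z0 : zf ε 0 = - (ε / (1 + ε ^ 2)) := by
    rw [zf, hw0, Real.cos_zero]; field_simp
  have zπ : zf ε π = ε / (1 + ε ^ 2) := by
    rw [zf, hwπ, Real.cos_pi]; field_simp
  have z2 : zf ε (2 * π) = - (ε / (1 + ε ^ 2)) := by
    rw [zf, hw2, Real.cos_two_pi]; field_simp
  have h5 : ε / (1 + ε ^ 2) ≤ ε := by
    rw [div_le_iff₀ (by positivity)]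
    nlinarith [sq_nonneg ε]
  rw [z0, zπ] at h1
  rw [z2, zπ] at h2
  linarith

lemma closed_family (hε : 0 < ε) :
    IsClosedProfile ((⊤ : ℕ∞) : WithTop ℕ∞) (rf ε) (zf ε) (2 * π) where
  period_pos := by have := Real.pi_pos; positivity
  smooth_r := by
    have h0 : ∀ s, ε ^ 2 + sin s ^ 2 ≠ 0 := fun s => by positivity
    have h1 : ContDiff ℝ ((⊤ : ℕ∞) : WithTop ℕ∞) (wf ε) := by
      unfold wf
      exact (contDiff_const.add (Real.contDiff_sin.pow 2)).sqrt h0
    unfold rf
    exact contDiff_const.add (Real.contDiff_sin.div h1 fun s => (wf_pos hε s).ne')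
  smooth_z := by
    have h0 : ∀ s, ε ^ 2 + sin s ^ 2 ≠ 0 := fun s => by positivity
    have h1 : ContDiff ℝ ((⊤ : ℕ∞) : WithTop ℕ∞) (wf ε) := by
      unfold wf
      exact (contDiff_const.add (Real.contDiff_sin.pow 2)).sqrt h0
    unfold zf
    exact contDiff_const.mul (Real.contDiff_cos.div h1 fun s => (wf_pos hε s).ne')
  periodic_r s := by simp [rf, wf]
  periodic_z s := by simp [zf, wf]
  pos := (prof_family hε).pos
  regular s := by
    rw [(rf_deriv hε s).deriv, (zf_deriv hε s).deriv]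
    by_contra hcon
    push Not at hcon
    have := (prof_family hε).reg s
    simp only [hcon.1, hcon.2] at this
    norm_num at this

lemma rf_le (hε : 0 < ε) (s : ℝ) : rf ε s ≤ 2 := by
  have hp := wf_pos hε s
  have h1 : sin s ≤ wf ε s := by
    apply Real.le_sqrt_of_sq_le
    nlinarith [sq_nonneg ε]
  have h2 : sin s / wf ε s ≤ 1 := by rw [div_le_one hp]; exact h1
  unfold rf
  linarith

lemma abs_zf_le (hε : 0 < ε) (s : ℝ) : |zf ε s| ≤ ε := by
  have hp := wf_pos hε s
  have h1 : ε ≤ wf ε s := by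
    apply Real.le_sqrt_of_sq_le
    nlinarith [sq_nonneg (sin s)]
  unfold zf
  rw [abs_mul, abs_neg, abs_of_pos (by positivity : 0 < ε ^ 2 / (1 + ε ^ 2)), abs_div,
    abs_of_pos hp]
  have h2 : |cos s| / wf ε s ≤ 1 / ε := by
    apply div_le_div₀ (by norm_num) (abs_cos_le_one s) hε h1
  calc ε ^ 2 / (1 + ε ^ 2) * (|cos s| / wf ε s) ≤ ε ^ 2 / (1 + ε ^ 2) * (1 / ε) := by gcongr
    _ ≤ ε ^ 2 / 1 * (1 / ε) := by
      gcongr
      linarith [sq_nonneg ε]
    _ = ε := by field_simp

lemma diam_family (hε : 0 < ε) : 2 * (1 + 1 / √(1 + ε ^ 2))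
    ≤ Metric.diam (image (revolve (rf ε) (zf ε))) := by
  have hb : Bornology.IsBounded (image (revolve (rf ε) (zf ε))) := by
    rw [Metric.isBounded_iff]
    refine ⟨√(16 + 4 * ε ^ 2), ?_⟩
    rintro _ ⟨⟨s, φ⟩, rfl⟩ _ ⟨⟨t, ψ⟩, rfl⟩
    apply Real.le_sqrt_of_sq_le
    rw [dist_sq_revolve]
    have h1 := rf_le hε s
    have h2 := rf_le hε t
    have h3 := (prof_family hε).pos s
    have h4 := (prof_family hε).pos t
    have h5 := abs_le.1 (abs_zf_le hε s)
    have h6 := abs_le.1 (abs_zf_le hε t)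
    have h7 := Real.neg_one_le_cos (φ - ψ)
    have h8 := mul_pos h3 h4
    have h9 : rf ε s ^ 2 + rf ε t ^ 2 - 2 * rf ε s * rf ε t * cos (φ - ψ) ≤ 16 := by
      nlinarith
    have h10 : (zf ε t - zf ε s) ^ 2 ≤ 4 * ε ^ 2 := by
      have : |zf ε t - zf ε s| ≤ 2 * ε := by
        rw [abs_le]; constructor <;> linarith [h5.1, h5.2, h6.1, h6.2]
      have := pow_le_pow_left₀ (abs_nonneg _) this 2
      rw [sq_abs] at this
      linarith
    linarith
  have hx : revolve (rf ε) (zf ε) (π / 2) 0 ∈ image (revolve (rf ε) (zf ε)) :=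
    ⟨(π / 2, 0), rfl⟩
  have hy : revolve (rf ε) (zf ε) (π / 2) π ∈ image (revolve (rf ε) (zf ε)) :=
    ⟨(π / 2, π), rfl⟩
  have h1 := Metric.dist_le_diam_of_mem hb hx hy
  have h2 := dist_sq_revolve (r := rf ε) (z := zf ε) (π / 2) 0 (π / 2) π
  have h3 : dist (revolve (rf ε) (zf ε) (π / 2) 0) (revolve (rf ε) (zf ε) (π / 2) π)
      = 2 * rf ε (π / 2) := by
    have hp := (prof_family hε).pos (π / 2)
    rw [zero_sub, Real.cos_neg, Real.cos_pi] at h2
    have h4 : dist (revolve (rf ε) (zf ε) (π / 2) 0) (revolve (rf ε) (zf ε) (π / 2) π) ^ 2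
        = (2 * rf ε (π / 2)) ^ 2 := by rw [h2]; ring
    exact (pow_left_inj₀ dist_nonneg (by positivity) (by norm_num)).1 h4
  have h5 : rf ε (π / 2) = 1 + 1 / √(1 + ε ^ 2) := by
    simp only [rf, wf, Real.sin_pi_div_two]
    rw [one_pow, add_comm (ε ^ 2)]
  rw [h3, h5] at h1
  exact h1

end family

/-- **Total absolute mean curvature of tori of revolution.**
(1) For every immersed torus of revolution `Σ ⊂ ℝ³` (profile of class `C²`) one has
`∫_Σ |H| ≥ (π² / 2) diam Σ`.
(2) The constant `π² / 2` is optimal, already among `C^∞` tori of revolution. -/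
theorem result :
    (∀ (r z : ℝ → ℝ) (T : ℝ), IsClosedProfile 2 r z T →
      π ^ 2 / 2 * Metric.diam (image (revolve r z))
        ≤ totalAbsMeanCurvature (revolve r z) T (2 * π)) ∧
    (∀ η : ℝ, 0 < η → ∃ (r z : ℝ → ℝ) (T : ℝ),
      IsClosedProfile ((⊤ : ℕ∞) : WithTop ℕ∞) r z T ∧
      totalAbsMeanCurvature (revolve r z) T (2 * π)
        < (π ^ 2 / 2 + η) * Metric.diam (image (revolve r z))) := by
  refine ⟨fun r z T h => lower h, fun η hη => ?_⟩
  set ε := η / (10 + η) with hεdef
  have hε : 0 < ε := by positivity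
  have hε1 : ε < 1 := by
    rw [hεdef, div_lt_one (by positivity)]; linarith
  refine ⟨rf ε, zf ε, 2 * π, closed_family hε, ?_⟩
  rw [total_revolve (prof_family hε)]
  simp only [hf_family hε]
  have h1 := integral_hf_family hε
  have h2 := diam_family hε
  have h3 : 1 - ε ≤ 1 / √(1 + ε ^ 2) := by
    rw [le_div_iff₀ (Real.sqrt_pos.2 (by positivity))]
    have h4 : √(1 + ε ^ 2) ≤ 1 + ε := by
      rw [Real.sqrt_le_left (by positivity)]
      nlinarith
    nlinarith
  have hπ := Real.pi_pos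
  have hπ2 : π < 3.15 := Real.pi_lt_d2
  have hD : 4 - 2 * ε ≤ Metric.diam (image (revolve (rf ε) (zf ε))) := by linarith
  have h5 : ε * (10 + η) = η := by rw [hεdef]; field_simp
  have h6 : ε * (4 * π + π ^ 2 + 2 * η) < 4 * η := by
    have e1 : 4 * η = ε * (40 + 4 * η) := by linarith
    have e2 : ε * (4 * π + π ^ 2 + 2 * η) < ε * (40 + 4 * η) := by
      apply mul_lt_mul_of_pos_left _ hε
      nlinarith
    linarith
  calc π * ∫ s in (0)..(2 * π), |sin s * gf ε s + rf ε s| ≤ π * (2 * π + 4 * ε) := by gcongr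
    _ < (π ^ 2 / 2 + η) * (4 - 2 * ε) := by nlinarith
    _ ≤ _ := by gcongr

end Pool.Agent.Results.MP_bea121_gt.AxisymmetricTori
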