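import Pool.Agent.Lib.MP_bea121_gt.TC.Final

/-!
# Topping's conjecture: total absolute mean curvature and diameter

For every smooth immersion `f` of a connected closed surface `S` into `ℝ³` (orientable or not),
`∫_S |H| > π diam f(S)`.
-/

open MeasureTheory Set Metric
open scoped RealInnerProductSpace ContDiff Manifold

noncomputable section

namespace Pool.Agent.Results.MP_bea121_gt.ToppingConjecture

/-- The Euclidean plane. -/
abbrev E2 : Type := EuclideanSpace ℝ (Fin 2)

/-- Euclidean three-space. -/
abbrev E3 : Type := EuclideanSpace ℝ (Fin 3)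

/-- The vector product of `ℝ³`. -/
def cross (a b : E3) : E3 :=
  !₂[a 1 * b 2 - a 2 * b 1, a 2 * b 0 - a 0 * b 2, a 0 * b 1 - a 1 * b 0]

/-- Partial derivative `F_u` of a parametrized surface `F(u, v)`. -/
def dU (F : E2 → E3) (z : E2) : E3 := fderiv ℝ F z (EuclideanSpace.single 0 1)

/-- Partial derivative `F_v` of a parametrized surface `F(u, v)`. -/
def dV (F : E2 → E3) (z : E2) : E3 := fderiv ℝ F z (EuclideanSpace.single 1 1)

/-- First fundamental form, coefficient `E = ⟨F_u, F_u⟩`. -/
def gE (F : E2 → E3) (z : E2) : ℝ := ⟪dU F z, dU F z⟫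

/-- First fundamental form, coefficient `F = ⟨F_u, F_v⟩`. -/
def gF (F : E2 → E3) (z : E2) : ℝ := ⟪dU F z, dV F z⟫

/-- First fundamental form, coefficient `G = ⟨F_v, F_v⟩`. -/
def gG (F : E2 → E3) (z : E2) : ℝ := ⟪dV F z, dV F z⟫

/-- Area density `√(EG - F²)`. -/
def areaDensity (F : E2 → E3) (z : E2) : ℝ := √(gE F z * gG F z - gF F z ^ 2)

/-- Unit normal `(F_u × F_v) / √(EG - F²)`. -/
def unitNormal (F : E2 → E3) (z : E2) : E3 := (areaDensity F z)⁻¹ • cross (dU F z) (dV F z)

/-- Second fundamental form, coefficient `L = ⟨F_uu, n⟩`. -/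
def sL (F : E2 → E3) (z : E2) : ℝ := ⟪dU (dU F) z, unitNormal F z⟫

/-- Second fundamental form, coefficient `M = ⟨F_uv, n⟩`. -/
def sM (F : E2 → E3) (z : E2) : ℝ := ⟪dV (dU F) z, unitNormal F z⟫

/-- Second fundamental form, coefficient `N = ⟨F_vv, n⟩`. -/
def sN (F : E2 → E3) (z : E2) : ℝ := ⟪dV (dV F) z, unitNormal F z⟫

/-- Mean curvature of a parametrized surface, the average of the two principal curvatures:
`H = (EN - 2FM + GL) / (2 (EG - F²))`. -/
def meanCurvature (F : E2 → E3) (z : E2) : ℝ :=
  (gE F z * sN F z - 2 * gF F z * sM F z + gG F z * sL F z) / (2 * (gE F z * gG F z - gF F z ^ 2))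

section Manifold

variable {S : Type} [TopologicalSpace S] [ChartedSpace E2 S]

/-- `f : S → ℝ³` is smooth. -/
def IsSmooth (f : S → E3) : Prop := ContMDiff (𝓡 2) (𝓡 3) ∞ f

/-- The local parametrization of the surface `f(S)` by the inverse of the chart of `S` at `x`. -/
def localParam (f : S → E3) (x : S) : E2 → E3 := f ∘ (chartAt E2 x).symm

/-- `f : S → ℝ³` is a smooth immersion of the surface `S`: it is smooth, and at every point `x` the two
partial derivatives of the local parametrization by the chart at `x` are linearly independent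
(their vector product is not zero). -/
def IsImmersion (f : S → E3) : Prop :=
  IsSmooth f ∧ ∀ x, cross (dU (localParam f x) (chartAt E2 x x)) (dV (localParam f x) (chartAt E2 x x)) ≠ 0

/-- `μ` is the area measure of the immersed surface: in each chart it has density `√(EG - F²)` with
respect to Lebesgue measure. -/
def IsAreaMeasure [MeasurableSpace S] (f : S → E3) (μ : Measure S) : Prop :=
  ∀ x : S, ∀ B ⊆ (chartAt E2 x).source, MeasurableSet B →
    μ B = ∫⁻ z in chartAt E2 x '' B, ENNReal.ofReal (areaDensity (localParam f x) z)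

/-- `|H|` at the point `x` of the immersed surface. -/
def absH (f : S → E3) (x : S) : ℝ := |meanCurvature (localParam f x) (chartAt E2 x x)|

end Manifold

/-- Topping's conjecture: for every smooth immersion `f` of a connected closed surface `S` in `ℝ³`,
the area measure exists and is unique, `|H|` is integrable, and `∫ |H| > π diam f(S)`. -/
theorem result (S : Type) [TopologicalSpace S] [T2Space S] [CompactSpace S] [ConnectedSpace S]
    [ChartedSpace E2 S] [IsManifold (𝓡 2) ∞ S] [MeasurableSpace S] [BorelSpace S]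
    (f : S → E3) (hf : IsImmersion f) :
    ∃ μ : Measure S, IsFiniteMeasure μ ∧ IsAreaMeasure f μ ∧
      (∀ ν : Measure S, IsAreaMeasure f ν → ν = μ) ∧ Integrable (absH f) μ ∧
      Real.pi * Metric.diam (range f) < ∫ x, absH f x ∂μ := by
  have hf' : Topping.IsImm f := by
    refine ⟨hf.1, fun x => ?_⟩
    have h1 : Function.Injective (fderiv ℝ (localParam f x) (chartAt E2 x x)) := by
      refine (Topping.gD_cross (localParam f x) (chartAt E2 x x)).2.2.1 ?_
      rw [(Topping.gD_cross (localParam f x) (chartAt E2 x x)).1]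
      have := hf.2 x
      exact pow_ne_zero 2 (norm_ne_zero_iff.2 this)
    have h2 : MDifferentiableAt (𝓡 2) (𝓡 3) f x :=
      (ContMDiff.mdifferentiable hf.1 (by simp)) x
    have h3 : mfderiv (𝓡 2) (𝓡 3) f x = fderiv ℝ (localParam f x) (chartAt E2 x x) := by
      rw [mfderiv, if_pos h2]
      simp only [writtenInExtChartAt, extChartAt, mfld_simps, fderivWithin_univ]
      rfl
    rw [h3]
    exact h1
  have habs : ∀ (F : E2 → E3) (z : E2), |meanCurvature F z| = Topping.absH F z := by
    intro F z
    have h0 : 0 ≤ Topping.gD F z := (Topping.gD_cross F z).2.1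
    have ha : areaDensity F z = Topping.areaD F z := rfl
    have hL : sL F z = (Topping.areaD F z)⁻¹ * Topping.hL F z := by
      show ⟪_, _ • _⟫ = _
      rw [real_inner_smul_right]; rfl
    have hM : sM F z = (Topping.areaD F z)⁻¹ * Topping.hM F z := by
      show ⟪_, _ • _⟫ = _
      rw [real_inner_smul_right]; rfl
    have hN : sN F z = (Topping.areaD F z)⁻¹ * Topping.hN F z := by
      show ⟪_, _ • _⟫ = _
      rw [real_inner_smul_right]; rfl
    have h1 : meanCurvature F z = (Topping.areaD F z)⁻¹ *
        (Topping.gE F z * Topping.hN F z - 2 * Topping.gF F z * Topping.hM F z + Topping.gG F z * Topping.hL F z) /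
          (2 * Topping.gD F z) := by
      unfold meanCurvature
      rw [hL, hM, hN]
      show (Topping.gE F z * _ - 2 * Topping.gF F z * _ + Topping.gG F z * _) / (2 * Topping.gD F z) = _
      ring
    have hA : 0 ≤ (Topping.areaD F z)⁻¹ := inv_nonneg.2 (Real.sqrt_nonneg _)
    have hG : 0 ≤ 2 * Topping.gD F z := by linarith
    rw [h1, abs_div, abs_of_nonneg hG, abs_mul, abs_of_nonneg hA]
    unfold Topping.absH Topping.HdF
    ring
  obtain ⟨μ, h1, h2, h3, h4, _, h5⟩ := Topping.topping_core f hf'
  have habs' : absH f = Topping.absMC f := by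
    funext x
    exact habs _ _
  refine ⟨μ, h1, h2, h3, ?_, ?_⟩
  · rw [habs']; exact h4
  · rw [habs']; exact h5

end Pool.Agent.Results.MP_bea121_gt.ToppingConjecture
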